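import Mathlib

/-!
# Three involutions generating a free action of `Z/2 * Z/2 * Z/2`: the forest, the universal
compact space, and continuous 3-colourings.
-/

namespace Pool.Agent.Helper70.C4

section generic

variable {X : Type*} (τ : Fin 3 → X → X)

/-- apply the involutions of a word, first letter first -/
def run : List (Fin 3) → X → X
  | [], x => x
  | i :: l, x => run l (τ i x)

/-- reduced nonempty words act without fixed points -/
def FreeW : Prop := ∀ w : List (Fin 3), w ≠ [] → w.IsChain (· ≠ ·) → ∀ x, run τ w x ≠ x

variable {τ}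

/-- the graph generated by the involutions -/
def gr (hτ : ∀ i x, τ i (τ i x) = x) (hF : FreeW τ) : SimpleGraph X where
  Adj x y := ∃ i, τ i x = y
  symm := ⟨by
    rintro x y ⟨i, rfl⟩
    exact ⟨i, hτ i x⟩⟩
  loopless := ⟨by
    rintro x ⟨i, h⟩
    exact hF [i] (by simp) (List.isChain_singleton _) x h⟩

lemma trail_run (hτ : ∀ i x, τ i (τ i x) = x) (hF : FreeW τ) {x y : X}
    (p : (gr hτ hF).Walk x y) (hp : p.IsTrail) : ∃ w : List (Fin 3), w.length = p.length ∧
      w.IsChain (· ≠ ·) ∧ run τ w x = y ∧ ∀ q ∈ w.head?, s(x, τ q x) ∈ p.edges := by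
  induction p with
  | nil => exact ⟨[], rfl, List.isChain_nil, rfl, by simp⟩
  | @cons x x' y h p ih =>
    have hp' := (SimpleGraph.Walk.isTrail_cons _ _).1 hp
    obtain ⟨w, h1, h2, h3, h4⟩ := ih hp'.1
    obtain ⟨i, hi⟩ := id h
    refine ⟨i :: w, by simp [h1], ?_, ?_, ?_⟩
    · cases w with
      | nil => exact List.isChain_singleton _
      | cons q w =>
        refine List.isChain_cons_cons.2 ⟨?_, h2⟩
        intro hiq
        have h5 := h4 q (by simp)
        have h6 : τ i x' = x := by rw [← hi, hτ]
        rw [← hiq, h6] at h5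
        apply hp'.2
        rw [Sym2.eq_swap]
        exact h5
    · show run τ w (τ i x) = y
      rw [hi, h3]
    · intro q hq
      simp at hq
      subst hq
      simp only [SimpleGraph.Walk.edges_cons]
      rw [hi]
      simp

theorem gr_acyclic (hτ : ∀ i x, τ i (τ i x) = x) (hF : FreeW τ) : (gr hτ hF).IsAcyclic := by
  intro x c hc
  obtain ⟨w, h1, h2, h3, -⟩ := trail_run hτ hF c hc.isTrail
  refine hF w ?_ h2 x h3
  intro h
  rw [h] at h1
  have := hc.three_le_length
  simp at h1
  omega

theorem gr_regular (hτ : ∀ i x, τ i (τ i x) = x) (hF : FreeW τ) (x : X) :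
    ((gr hτ hF).neighborSet x).ncard = 3 := by
  have h : (gr hτ hF).neighborSet x = Set.range (fun i => τ i x) := by
    ext y
    simp [gr, SimpleGraph.mem_neighborSet]
  have hinj : Function.Injective (fun i => τ i x) := by
    intro i j hij
    by_contra hne
    simp only at hij
    refine hF [i, j] (by simp) (List.isChain_cons_cons.2 ⟨hne, List.isChain_singleton _⟩) x ?_
    show τ j (τ i x) = x
    rw [hij, hτ]
  rw [h, ← Set.image_univ, Set.ncard_image_of_injective _ hinj]
  simp

end generic

/-! ### Continuous proper 3-colourings of a fixed point free homeomorphism -/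

/-- an element of `Fin 3` different from two given ones -/
def third (a b : Fin 3) : Fin 3 :=
  if 0 ≠ a ∧ 0 ≠ b then 0 else if 1 ≠ a ∧ 1 ≠ b then 1 else 2

lemma third_ne_left (a b : Fin 3) : third a b ≠ a := by
  revert a b; decide

lemma third_ne_right (a b : Fin 3) : third a b ≠ b := by
  revert a b; decide

theorem exists_coloring {X : Type*} [TopologicalSpace X] [CompactSpace X] [T2Space X]
    [TotallyDisconnectedSpace X] (g : X ≃ₜ X) (hg : ∀ x, g x ≠ x) :
    ∃ c : X → Fin 3, Continuous c ∧ ∀ x, c x ≠ c (g x) := by
  classical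
  -- small clopen sets
  have h1 : ∀ x : X, ∃ U : Set X, IsClopen U ∧ x ∈ U ∧ ∀ y ∈ U, g y ∉ U := by
    intro x
    have hne : g x ∈ ({x}ᶜ : Set X) := hg x
    obtain ⟨V, hV, hgV, hVx⟩ := compact_exists_isClopen_in_isOpen (isOpen_compl_singleton (x := x))
      (hg x : g x ∈ ({x}ᶜ : Set X))
    have hxV : x ∉ V := fun h => hVx h rfl
    refine ⟨Vᶜ ∩ g ⁻¹' V, hV.compl.inter (hV.preimage g.continuous), ⟨hxV, hgV⟩, ?_⟩
    rintro y ⟨-, hy⟩ ⟨hy', -⟩
    exact hy' hy
  choose U hU hxU hgU using h1
  obtain ⟨s, hs⟩ := isCompact_univ.elim_finite_subcover U (fun x => (hU x).isOpen)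
    (fun x _ => Set.mem_iUnion.2 ⟨x, hxU x⟩)
  have key : ∀ s : Finset X, ∃ c : X → Fin 3, Continuous c ∧
      ∀ x, x ∈ (⋃ y ∈ s, U y) → g x ∈ (⋃ y ∈ s, U y) → c x ≠ c (g x) := by
    intro s
    induction s using Finset.induction_on with
    | empty => exact ⟨fun _ => 0, continuous_const, by simp⟩
    | insert a s ha ih =>
      obtain ⟨c, hc, hcs⟩ := ih
      set S : Set X := ⋃ y ∈ s, U y with hS
      have hSc : IsClopen S := by
        rw [hS]
        exact s.finite_toSet.isClopen_biUnion (fun y _ => hU y)
      set D : Set X := U a \ S with hD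
      have hDc : IsClopen D := (hU a).diff hSc
      have hun : (⋃ y ∈ insert a s, U y) = U a ∪ S := by
        rw [Finset.set_biUnion_insert]
      rw [hun]
      refine ⟨fun x => if x ∈ D then third (c (g x)) (c (g.symm x)) else c x, ?_, ?_⟩
      · refine continuous_if' ?_ ?_ ?_ ?_
        · intro x hx
          rw [show {x | x ∈ D} = D from rfl, hDc.frontier_eq] at hx
          exact hx.elim
        · intro x hx
          rw [show {x | x ∈ D} = D from rfl, hDc.frontier_eq] at hx
          exact hx.elim
        · have : Continuous fun x => third (c (g x)) (c (g.symm x)) := by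
            have h2 : Continuous (fun z : Fin 3 × Fin 3 => third z.1 z.2) :=
              continuous_of_discreteTopology
            exact h2.comp ((hc.comp g.continuous).prodMk (hc.comp g.symm.continuous))
          exact this.continuousOn
        · exact hc.continuousOn
      · intro x hx hgx
        by_cases hxD : x ∈ D
        · have hgxa : g x ∉ U a := hgU a x hxD.1
          have hgD : g x ∉ D := fun h => hgxa h.1
          simp only [if_pos hxD, if_neg hgD]
          exact third_ne_left _ _
        · have hxS : x ∈ S := by
            rcases hx with h | h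
            · by_contra hn
              exact hxD ⟨h, hn⟩
            · exact h
          by_cases hgD : g x ∈ D
          · simp only [if_neg hxD, if_pos hgD, Homeomorph.symm_apply_apply]
            exact (third_ne_right _ _).symm
          · have hgS : g x ∈ S := by
              rcases hgx with h | h
              · by_contra hn
                exact hgD ⟨h, hn⟩
              · exact h
            simp only [if_neg hxD, if_neg hgD]
            exact hcs x hxS hgS
  obtain ⟨c, hc, hcs⟩ := key s
  exact ⟨c, hc, fun x => hcs x (hs trivial) (hs trivial)⟩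

end Pool.Agent.Helper70.C4
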