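import Pool.Agent.Helper70.C4.Generic

/-!
# The universal compact space with three involutions generating a free action
-/

namespace Pool.Agent.Helper70.C4

/-- reduced words in three letters -/
abbrev RW := {l : List (Fin 3) // l.IsChain (· ≠ ·)}

/-- the empty word -/
def rnil : RW := ⟨[], List.isChain_nil⟩

/-- multiply a reduced word by a letter -/
def rho (i : Fin 3) : RW → RW
  | ⟨[], _⟩ => ⟨[i], List.isChain_singleton _⟩
  | ⟨j :: t, h⟩ => if hj : j = i then ⟨t, h.tail⟩
      else ⟨i :: j :: t, List.isChain_cons_cons.2 ⟨fun e => hj e.symm, h⟩⟩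

/-- all labellings -/
abbrev KK := RW → (RW → Fin 3)

/-- the shift by a letter -/
def sh (i : Fin 3) (z : KK) : KK := fun l => z (rho i l)

lemma run_rho {X : Type*} {τ : Fin 3 → X → X} (hτ : ∀ i x, τ i (τ i x) = x) (i : Fin 3) (l : RW)
    (x : X) : run τ (rho i l).1 x = run τ l.1 (τ i x) := by
  obtain ⟨l, hl⟩ := l
  cases l with
  | nil => rfl
  | cons j t =>
    by_cases hj : j = i
    · subst hj
      simp only [rho, dif_pos]
      show run τ t x = run τ t (τ j (τ j x))
      rw [hτ]
    · simp only [rho, dif_neg hj]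
      rfl

lemma rho_rho (i : Fin 3) (l : RW) : rho i (rho i l) = l := by
  obtain ⟨l, hl⟩ := l
  cases l with
  | nil => simp [rho]
  | cons j t =>
    by_cases hj : j = i
    · subst hj
      cases t with
      | nil => simp [rho]
      | cons k t =>
        have hk : k ≠ j := (List.isChain_cons_cons.1 hl).1.symm
        simp [rho, hk]
    · simp [rho, hj]

lemma sh_sh (i : Fin 3) (z : KK) : sh i (sh i z) = z := by
  funext l
  simp only [sh, rho_rho]

lemma continuous_sh (i : Fin 3) : Continuous (sh i) :=
  continuous_pi fun l => continuous_apply (rho i l)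

lemma continuous_run_sh (l : List (Fin 3)) : Continuous (run sh l) := by
  induction l with
  | nil => exact continuous_id
  | cons i l ih => exact ih.comp (continuous_sh i)

/-- the labellings in which the `w`-colours of `x` and `w x` differ, for every reduced `w ≠ 1` -/
def ZZset : Set KK := {z | ∀ (l : List (Fin 3)) (w : RW), w.1 ≠ [] →
  (run sh l z) rnil w ≠ (run sh w.1 (run sh l z)) rnil w}

lemma isClosed_ZZset : IsClosed ZZset := by
  have : ZZset = ⋂ (l : List (Fin 3)), ⋂ (w : RW), ⋂ (_ : w.1 ≠ []),
      {z | (run sh l z) rnil w ≠ (run sh w.1 (run sh l z)) rnil w} := by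
    ext z
    simp [ZZset]
  rw [this]
  refine isClosed_iInter fun l => isClosed_iInter fun w => isClosed_iInter fun _ => ?_
  have hc : Continuous (fun z : KK => (((run sh l z) rnil w,
      (run sh w.1 (run sh l z)) rnil w) : Fin 3 × Fin 3)) := by
    refine Continuous.prodMk ?_ ?_
    · exact (continuous_apply w).comp ((continuous_apply rnil).comp (continuous_run_sh l))
    · exact (continuous_apply w).comp ((continuous_apply rnil).comp
        ((continuous_run_sh w.1).comp (continuous_run_sh l)))
  exact (isClosed_discrete {p : Fin 3 × Fin 3 | p.1 ≠ p.2}).preimage hc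

/-- the universal compact space -/
abbrev ZZ := {z : KK // z ∈ ZZset}

/-- its involutions -/
def tz (i : Fin 3) (z : ZZ) : ZZ := ⟨sh i z.1, fun l w hw => z.2 (i :: l) w hw⟩

lemma tz_tz (i : Fin 3) (z : ZZ) : tz i (tz i z) = z := Subtype.ext (sh_sh i z.1)

lemma run_tz (l : List (Fin 3)) (z : ZZ) : (run tz l z).1 = run sh l z.1 := by
  induction l generalizing z with
  | nil => rfl
  | cons i l ih => exact ih _

lemma free_tz : FreeW tz := by
  intro w hw hc z h
  have h1 := z.2 [] ⟨w, hc⟩ hw
  apply h1
  have h2 := congrArg Subtype.val h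
  rw [run_tz] at h2
  show z.1 rnil _ = (run sh w z.1) rnil _
  rw [h2]

/-- the involutions as homeomorphisms -/
def tzHomeo (i : Fin 3) : ZZ ≃ₜ ZZ where
  toFun := tz i
  invFun := tz i
  left_inv := tz_tz i
  right_inv := tz_tz i
  continuous_toFun := ((continuous_sh i).comp continuous_subtype_val).subtype_mk _
  continuous_invFun := ((continuous_sh i).comp continuous_subtype_val).subtype_mk _

instance : CompactSpace ZZ := isCompact_iff_compactSpace.1 isClosed_ZZset.isCompact

/-- Every compact zero-dimensional space with three involutions generating a free action maps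
continuously and equivariantly to `ZZ`. -/
theorem exists_map {X : Type*} [TopologicalSpace X] [CompactSpace X] [T2Space X]
    [TotallyDisconnectedSpace X] (τ : Fin 3 → (X ≃ₜ X)) (hτ : ∀ i x, τ i (τ i x) = x)
    (hF : FreeW (fun i x => τ i x)) :
    ∃ Φ : X → ZZ, Continuous Φ ∧ ∀ i x, Φ (τ i x) = tz i (Φ x) := by
  -- the homeomorphism of a word
  have hhomeo : ∀ w : List (Fin 3), ∃ g : X ≃ₜ X, ∀ x, g x = run (fun i x => τ i x) w x := by
    intro w
    induction w with
    | nil => exact ⟨Homeomorph.refl X, fun _ => rfl⟩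
    | cons i w ih =>
      obtain ⟨g, hg⟩ := ih
      exact ⟨(τ i).trans g, fun x => by simp [hg, run]⟩
  have hcol : ∀ w : RW, ∃ c : X → Fin 3, Continuous c ∧
      (w.1 ≠ [] → ∀ x, c x ≠ c (run (fun i x => τ i x) w.1 x)) := by
    intro w
    by_cases hw : w.1 = []
    · exact ⟨fun _ => 0, continuous_const, fun h => absurd hw h⟩
    · obtain ⟨g, hg⟩ := hhomeo w.1
      obtain ⟨c, hc, hcg⟩ := exists_coloring g (fun x => by rw [hg]; exact hF w.1 hw w.2 x)
      exact ⟨c, hc, fun _ x => by rw [← hg]; exact hcg x⟩
  choose c hc hcw using hcol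
  let Ψ : X → KK := fun x l w => c w (run (fun i x => τ i x) l.1 x)
  have hΨ : ∀ i x, Ψ (τ i x) = sh i (Ψ x) := by
    intro i x
    funext l w
    show c w (run (fun i x => τ i x) l.1 (τ i x)) = c w (run (fun i x => τ i x) (rho i l).1 x)
    rw [run_rho (τ := fun i x => τ i x) hτ]
  have hΨr : ∀ (l : List (Fin 3)) x, run sh l (Ψ x) = Ψ (run (fun i x => τ i x) l x) := by
    intro l
    induction l with
    | nil => intro x; rfl
    | cons i l ih =>
      intro x
      show run sh l (sh i (Ψ x)) = Ψ (run (fun i x => τ i x) l (τ i x))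
      rw [← hΨ, ih]
  have hmem : ∀ x, Ψ x ∈ ZZset := by
    intro x l w hw
    rw [hΨr, hΨr]
    exact hcw w hw _
  refine ⟨fun x => ⟨Ψ x, hmem x⟩, ?_, fun i x => Subtype.ext (hΨ i x)⟩
  refine Continuous.subtype_mk ?_ _
  refine continuous_pi fun l => continuous_pi fun w => ?_
  obtain ⟨g, hg⟩ := hhomeo l.1
  have : (fun x => Ψ x l w) = fun x => c w (g x) := by
    funext x
    rw [hg]
  rw [this]
  exact (hc w).comp g.continuous

end Pool.Agent.Helper70.C4
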