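import Mathlib

/-!
# The relaxed problem `Φ_G` (MP_5a85b5_lc)

Labels, vertex configurations, edge relation, starred labels, and the two combinatorial
classification lemmas (maximal bicliques, universal triples) for graphs without 4-cycles.
-/

namespace Pool.Agent.Helper70.C4

/-- Two distinct vertices have at most one common neighbour, i.e. there is no 4-cycle. -/
def C4Free {V : Type*} (G : SimpleGraph V) : Prop :=
  ∀ ⦃a b c d : V⦄, a ≠ b → G.Adj a c → G.Adj b c → G.Adj a d → G.Adj b d → c = d

/-- Half-edge labels of the relaxed problem. -/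
inductive Lab (V : Type*) where
  | pt : V → Lab V
  | nb : V → Lab V
  | top : Lab V
  | bot : Lab V

/-- Allowed triples at a vertex. -/
def Config {V : Type*} (c : Fin 3 → Lab V) : Prop :=
  (∃ h, ∀ i, c i = Lab.pt h) ∨ (∃ b k, c k = Lab.bot ∧ ∀ i, i ≠ k → c i = Lab.nb b) ∨
    (∃ k, c k = Lab.top ∧ ∀ i, i ≠ k → c i = Lab.bot)

/-- Allowed pairs on an edge. -/
def CE {V : Type*} (G : SimpleGraph V) : Lab V → Lab V → Prop
  | Lab.bot, _ => True
  | _, Lab.bot => True
  | Lab.pt h, Lab.pt h' => G.Adj h h'
  | Lab.pt b, Lab.nb c => b = c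
  | Lab.nb c, Lab.pt b => b = c
  | _, _ => False

/-- Starred labels (closed sets of labels). -/
inductive Star (V : Type*) where
  | bot : Star V
  | top : Star V
  | pt : V → Star V
  | nb : V → Star V

/-- duality of starred labels -/
def Star.dual {V : Type*} : Star V → Star V
  | Star.bot => Star.top
  | Star.top => Star.bot
  | Star.pt b => Star.nb b
  | Star.nb b => Star.pt b

@[simp] lemma Star.dual_dual {V : Type*} (t : Star V) : t.dual.dual = t := by
  cases t <;> rfl

/-- The labels contained in a starred label. -/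
def SMem {V : Type*} (G : SimpleGraph V) : Lab V → Star V → Prop
  | _, Star.top => True
  | ℓ, Star.bot => ℓ = Lab.bot
  | ℓ, Star.pt b => ℓ = Lab.bot ∨ ℓ = Lab.pt b
  | ℓ, Star.nb b => ℓ = Lab.bot ∨ ℓ = Lab.nb b ∨ ∃ h, ℓ = Lab.pt h ∧ G.Adj b h

lemma SMem_bot {V : Type*} (G : SimpleGraph V) (t : Star V) : SMem G Lab.bot t := by
  cases t <;> simp [SMem]

/-- Bicliques are contained in one of the four maximal ones. -/
theorem biclique {V : Type*} {G : SimpleGraph V} (hG : C4Free G) (S T : Set (Lab V))
    (h : ∀ s ∈ S, ∀ t ∈ T, CE G s t) :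
    ∃ u : Star V, (∀ s ∈ S, SMem G s u) ∧ ∀ t ∈ T, SMem G t u.dual := by
  classical
  by_cases hS : ∀ s ∈ S, s = Lab.bot
  · exact ⟨Star.bot, fun s hs => hS s hs, fun t _ => trivial⟩
  by_cases hT : ∀ t ∈ T, t = Lab.bot
  · exact ⟨Star.top, fun s _ => trivial, fun t ht => hT t ht⟩
  push Not at hS hT
  obtain ⟨s0, hs0, hs0b⟩ := hS
  obtain ⟨t0, ht0, ht0b⟩ := hT
  -- no `top`
  have htopS : Lab.top ∉ S := by
    intro hm
    have := h _ hm _ ht0
    cases t0 <;> simp_all [CE]
  have htopT : Lab.top ∉ T := by
    intro hm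
    have := h _ hs0 _ hm
    cases s0 <;> simp_all [CE]
  by_cases hnT : ∃ b, Lab.nb b ∈ T
  · obtain ⟨b, hb⟩ := hnT
    have hSb : ∀ s ∈ S, s = Lab.bot ∨ s = Lab.pt b := by
      intro s hs
      have := h s hs _ hb
      cases s <;> simp_all [CE]
    have hptb : Lab.pt b ∈ S := by
      rcases hSb s0 hs0 with h1 | h1
      · exact absurd h1 hs0b
      · exact h1 ▸ hs0
    refine ⟨Star.pt b, hSb, fun t ht => ?_⟩
    have := h _ hptb t ht
    cases t with
    | pt h' => right; right; exact ⟨h', rfl, this⟩
    | nb c => right; left; simp only [CE] at this; rw [this]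
    | top => exact absurd ht htopT
    | bot => left; rfl
  by_cases hnS : ∃ b, Lab.nb b ∈ S
  · obtain ⟨b, hb⟩ := hnS
    have hTb : ∀ t ∈ T, t = Lab.bot ∨ t = Lab.pt b := by
      intro t ht
      have := h _ hb t ht
      cases t <;> simp_all [CE]
    have hptb : Lab.pt b ∈ T := by
      rcases hTb t0 ht0 with h1 | h1
      · exact absurd h1 ht0b
      · exact h1 ▸ ht0
    refine ⟨Star.nb b, fun s hs => ?_, hTb⟩
    have := h s hs _ hptb
    cases s with
    | pt h' => right; right; exact ⟨h', rfl, SimpleGraph.Adj.symm (G := G) this⟩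
    | nb c => right; left; simp only [CE] at this; rw [this]
    | top => exact absurd hs htopS
    | bot => left; rfl
  push Not at hnT hnS
  -- both consist of points and `bot`
  obtain ⟨a, rfl⟩ : ∃ a, s0 = Lab.pt a := by
    cases s0 with
    | pt a => exact ⟨a, rfl⟩
    | nb c => exact absurd hs0 (hnS c)
    | top => exact absurd hs0 htopS
    | bot => exact absurd rfl hs0b
  obtain ⟨b, rfl⟩ : ∃ b, t0 = Lab.pt b := by
    cases t0 with
    | pt a => exact ⟨a, rfl⟩
    | nb c => exact absurd ht0 (hnT c)
    | top => exact absurd ht0 htopT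
    | bot => exact absurd rfl ht0b
  by_cases hA : ∀ a', Lab.pt a' ∈ S → a' = a
  · refine ⟨Star.pt a, fun s hs => ?_, fun t ht => ?_⟩
    · cases s with
      | pt a' => right; rw [hA a' hs]
      | nb c => exact absurd hs (hnS c)
      | top => exact absurd hs htopS
      | bot => left; rfl
    · cases t with
      | pt b' => right; right; exact ⟨b', rfl, h _ hs0 _ ht⟩
      | nb c => exact absurd ht (hnT c)
      | top => exact absurd ht htopT
      | bot => left; rfl
  · push Not at hA
    obtain ⟨a', ha', hne⟩ := hA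
    refine ⟨Star.nb b, fun s hs => ?_, fun t ht => ?_⟩
    · cases s with
      | pt a'' => right; right; exact ⟨a'', rfl, SimpleGraph.Adj.symm (G := G) (h _ hs _ ht0)⟩
      | nb c => exact absurd hs (hnS c)
      | top => exact absurd hs htopS
      | bot => left; rfl
    · cases t with
      | pt b' =>
        right
        have e1 : G.Adj a b := h _ hs0 _ ht0
        have e2 : G.Adj a' b := h _ ha' _ ht0
        have e3 : G.Adj a b' := h _ hs0 _ ht
        have e4 : G.Adj a' b' := h _ ha' _ ht
        rw [hG hne e4 e3 e2 e1]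
      | nb c => exact absurd ht (hnT c)
      | top => exact absurd ht htopT
      | bot => left; rfl

end Pool.Agent.Helper70.C4
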