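import Pool.Agent.Helper70.C4.Words
import Pool.Agent.Helper70.C4.Generic

/-!
# The compact space `X_A`, and the reduction of continuous maps to finite level
-/

namespace Pool.Agent.Helper70.C4

variable (A : Type) [AddCommGroup A]

/-- the compact group: all permutations of words of length at most `n`, for all `n` -/
abbrev QQ := (n : ℕ) → Equiv.Perm (Wd A n)

/-- the compact space -/
abbrev XX := LT (QQ A) A

variable {A}

/-- the action on the group -/
noncomputable def actQ (i : Fin 3) (a : A) (q : QQ A) : QQ A := fun n => q n * alpha n i a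

lemma actQ_actQ (hA2 : ∀ a : A, a + a = 0) (i : Fin 3) (a : A) (q : QQ A) :
    actQ i a (actQ i a q) = q := by
  funext n
  simp only [actQ]
  rw [mul_assoc, alpha_mul, hA2, alpha_zero, mul_one]

/-- the three involutions -/
noncomputable def tq (i : Fin 3) (x : XX A) : XX A := tau actQ i x

lemma tq_tq (hA2 : ∀ a : A, a + a = 0) (i : Fin 3) (x : XX A) : tq i (tq i x) = x :=
  tau_tau actQ (actQ_actQ hA2) i x

lemma run_fst (w : List (Fin 3)) : ∀ x : XX A, ∃ L : List (Fin 3 × NZ A), L.map Prod.fst = w ∧
    ∀ n, (run tq w x).1 n = x.1 n * pr n L := by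
  induction w with
  | nil => exact fun x => ⟨[], rfl, fun n => by simp [run, pr_nil]⟩
  | cons i w ih =>
    intro x
    obtain ⟨L, hL, hL'⟩ := ih (tq i x)
    refine ⟨(i, x.2 (i, [])) :: L, by simp [hL], fun n => ?_⟩
    show (run tq w (tq i x)).1 n = _
    rw [hL', pr_cons, ← mul_assoc]
    rfl

lemma free_tq : FreeW (tq (A := A)) := by
  intro w hw hc x h
  obtain ⟨L, hL, hL'⟩ := run_fst w x
  have h1 := hL' L.length
  rw [h] at h1
  have h2 : pr L.length L = 1 := by
    have := h1.symm
    rwa [mul_eq_left] at this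
  refine pr_ne_one ⟨le_rfl, ?_⟩ ?_ h2
  · rw [← hL, List.isChain_map] at hc
    exact hc
  · rintro rfl
    exact hw (by simpa using hL.symm)

section topo

variable (A)

local instance topP (n : ℕ) : TopologicalSpace (Equiv.Perm (Wd A n)) := ⊥
local instance discP (n : ℕ) : DiscreteTopology (Equiv.Perm (Wd A n)) := ⟨rfl⟩
local instance topN : TopologicalSpace (NZ A) := ⊥
local instance discN : DiscreteTopology (NZ A) := ⟨rfl⟩

variable {A}

lemma continuous_tq (i : Fin 3) : Continuous (tq (A := A) i) := by
  refine Continuous.prodMk ?_ ?_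
  · refine continuous_pi fun n => ?_
    have h1 : Continuous (fun x : XX A => ((x.1 n, x.2 (i, [])) : Equiv.Perm (Wd A n) × NZ A)) := by
      fun_prop
    have h2 : Continuous (fun z : Equiv.Perm (Wd A n) × NZ A => z.1 * alpha n i z.2.1) :=
      continuous_of_discreteTopology
    exact h2.comp h1
  · refine continuous_pi fun p => ?_
    fun_prop

/-- the involution as a homeomorphism -/
noncomputable def tqHomeo (hA2 : ∀ a : A, a + a = 0) (i : Fin 3) : XX A ≃ₜ XX A where
  toFun := tq i
  invFun := tq i
  left_inv := tq_tq hA2 i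
  right_inv := tq_tq hA2 i
  continuous_toFun := continuous_tq i
  continuous_invFun := continuous_tq i

/-- agreement up to level `N` -/
def Lev (N : ℕ) (x y : XX A) : Prop :=
  (∀ n < N, x.1 n = y.1 n) ∧ ∀ p : Edge, p.2.length < N → x.2 p = y.2 p

theorem finite_level [Finite A] {V : Type*} (f : XX A → V) (hf : ∀ v, IsOpen (f ⁻¹' {v})) :
    ∃ N, ∀ x y, Lev N x y → f x = f y := by
  classical
  by_contra hcon
  push Not at hcon
  choose x y hxy hne using hcon
  let U : Ultrafilter ℕ := Filter.hyperfilter ℕ
  have hcs : CompactSpace (XX A) := inferInstance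
  have hcx : ∃ a, Filter.Tendsto x U (nhds a) := by
    obtain ⟨a, -, ha⟩ := isCompact_univ.ultrafilter_le_nhds (U.map x) (by simp)
    exact ⟨a, ha⟩
  have hcy : ∃ a, Filter.Tendsto y U (nhds a) := by
    obtain ⟨a, -, ha⟩ := isCompact_univ.ultrafilter_le_nhds (U.map y) (by simp)
    exact ⟨a, ha⟩
  obtain ⟨a, ha⟩ := hcx
  obtain ⟨b, hb⟩ := hcy
  have hev : ∀ n : ℕ, ∀ᶠ N in (U : Filter ℕ), n < N := by
    intro n
    have : ∀ᶠ N in Filter.cofinite, n < N := by
      rw [Nat.cofinite_eq_atTop]
      exact Filter.eventually_gt_atTop n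
    exact (Filter.hyperfilter_le_cofinite) this
  have hab : a = b := by
    ext1
    · funext n
      have h1 : ∀ᶠ N in (U : Filter ℕ), (x N).1 n = a.1 n := by
        have hc : Continuous (fun z : XX A => z.1 n) := by fun_prop
        have := (hc.tendsto a).comp ha
        exact this (by simp : {a.1 n} ∈ nhds (a.1 n))
      have h2 : ∀ᶠ N in (U : Filter ℕ), (y N).1 n = b.1 n := by
        have hc : Continuous (fun z : XX A => z.1 n) := by fun_prop
        have := (hc.tendsto b).comp hb
        exact this (by simp : {b.1 n} ∈ nhds (b.1 n))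
      obtain ⟨N, h3, h4, h5⟩ := (h1.and (h2.and (hev n))).exists
      rw [← h3, ← h4, (hxy N).1 n h5]
    · funext p
      have h1 : ∀ᶠ N in (U : Filter ℕ), (x N).2 p = a.2 p := by
        have hc : Continuous (fun z : XX A => z.2 p) := by fun_prop
        have := (hc.tendsto a).comp ha
        exact this (by simp : {a.2 p} ∈ nhds (a.2 p))
      have h2 : ∀ᶠ N in (U : Filter ℕ), (y N).2 p = b.2 p := by
        have hc : Continuous (fun z : XX A => z.2 p) := by fun_prop
        have := (hc.tendsto b).comp hb
        exact this (by simp : {b.2 p} ∈ nhds (b.2 p))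
      obtain ⟨N, h3, h4, h5⟩ := (h1.and (h2.and (hev p.2.length))).exists
      rw [← h3, ← h4, (hxy N).2 p h5]
  have h1 : ∀ᶠ N in (U : Filter ℕ), f (x N) = f a :=
    ha ((hf (f a)).mem_nhds rfl)
  have h2 : ∀ᶠ N in (U : Filter ℕ), f (y N) = f a := by
    rw [hab]
    exact hb ((hf (f b)).mem_nhds rfl)
  obtain ⟨N, h3, h4⟩ := (h1.and h2).exists
  exact hne N (h3.trans h4.symm)

end topo

/-- the finite quotient of the group at level `N` -/
abbrev WW (A : Type) [AddCommGroup A] (N : ℕ) := (n : Fin N) → Equiv.Perm (Wd A n)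

/-- extension by the identity -/
def ext {N : ℕ} (w : WW A N) : QQ A := fun n => if h : n < N then w ⟨n, h⟩ else 1

/-- action on the finite quotient -/
noncomputable def actW (N : ℕ) (i : Fin 3) (a : A) (w : WW A N) : WW A N :=
  fun n => w n * alpha n i a

/-- a homomorphism depending on finitely many coordinates gives a local solution -/
theorem no_hom [Fintype A] [Nontrivial A] (hA2 : ∀ a : A, a + a = 0) {m : ℕ} (hm3 : 3 ≤ m)
    (hcard : m + 6 < Fintype.card A) {V : Type*} {H : SimpleGraph V} (hH : C4Free H)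
    (hm : H.Colorable m) (f : XX A → V) (N : ℕ) (hN : ∀ x y, Lev N x y → f x = f y)
    (hf : ∀ i x, H.Adj (f x) (f (tq i x))) : False := by
  classical
  set M := N + 2 with hM
  have hfin : Fintype (WW A M) := Fintype.ofFinite _
  let hlin : LinearOrder (WW A M) := LinearOrder.lift' (Fintype.equivFin (WW A M))
    (Fintype.equivFin (WW A M)).injective
  have hadd : ∀ i a b (w : WW A M), actW M i a (actW M i b w) = actW M i (a + b) w := by
    intro i a b w
    funext n
    simp only [actW]
    rw [mul_assoc, alpha_mul, add_comm]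
  have hzero : ∀ i (w : WW A M), actW M i 0 w = w := by
    intro i w
    funext n
    simp only [actW]
    rw [alpha_zero, mul_one]
  have hfree : ∀ i (a : NZ A) (w : WW A M), actW M i a.1 w ≠ w := by
    intro i a w h
    have h1 := congrFun h ⟨1, by omega⟩
    simp only [actW] at h1
    rw [mul_eq_left] at h1
    refine pr_ne_one (A := A) (n := 1) (L := [(i, a)]) ⟨by simp, List.isChain_singleton _⟩
      (by simp) ?_
    simpa [pr] using h1
  let φ : Fin 3 → LT (WW A M) A → Lab V := fun _ x => Lab.pt (f (ext x.1, x.2))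
  refine no_sol (A := A) (W := WW A M) (act := actW M) hm3 hA2 hadd hzero hfree hcard N hH hm φ
    ⟨?_, ?_, ?_⟩
  · intro i x y hxy
    simp only [φ]
    congr 1
    apply hN
    refine ⟨fun n _ => ?_, fun p hp => hxy.2 p hp⟩
    simp only
    rw [hxy.1]
  · intro x
    exact Or.inl ⟨_, fun _ => rfl⟩
  · intro i x
    show H.Adj _ _
    have h1 := hf i (ext x.1, x.2)
    have h2 : f (tq i (ext x.1, x.2)) = f (ext (tau (actW M) i x).1, (tau (actW M) i x).2) := by
      apply hN
      refine ⟨fun n hn => ?_, fun p _ => rfl⟩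
      have hn' : n < M := by omega
      simp only [tq, tau, actQ, actW, ext, dif_pos hn']
    rw [h2] at h1
    exact h1

/-- For every `m` there is a compact zero-dimensional space with three involutions generating a
free action which has no continuous homomorphism to a 4-cycle-free `m`-colourable graph. -/
theorem main_aux (A : Type) [AddCommGroup A] [Fintype A] [Nontrivial A]
    (hA2 : ∀ a : A, a + a = 0) {m : ℕ} (hm3 : 3 ≤ m) (hcard : m + 6 < Fintype.card A) :
    ∃ (X : Type) (_ : TopologicalSpace X) (_ : CompactSpace X) (_ : T2Space X)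
      (_ : TotallyDisconnectedSpace X) (τ : Fin 3 → (X ≃ₜ X)),
      (∀ i x, τ i (τ i x) = x) ∧ FreeW (fun i x => τ i x) ∧
      ∀ {V : Type*} {H : SimpleGraph V}, C4Free H → H.Colorable m →
      ∀ f : X → V, (∀ v, IsOpen (f ⁻¹' {v})) → ¬ ∀ i x, H.Adj (f x) (f (τ i x)) := by
  let tP : ∀ n, TopologicalSpace (Equiv.Perm (Wd A n)) := topP A
  have dP : ∀ n, DiscreteTopology (Equiv.Perm (Wd A n)) := discP A
  let tN : TopologicalSpace (NZ A) := topN A
  have dN : DiscreteTopology (NZ A) := discN A
  refine ⟨XX A, inferInstance, inferInstance, inferInstance, inferInstance,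
    tqHomeo hA2, fun i x => tq_tq hA2 i x, free_tq, ?_⟩
  intro V H hH hm f hf hhom
  obtain ⟨N, hN⟩ := finite_level f hf
  exact no_hom hA2 hm3 hcard hH hm f N hN hhom

end Pool.Agent.Helper70.C4
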