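import Pool.Agent.Helper70.C4.Universal2

/-!
# Labelled 3-regular trees, re-rooting, and the elimination step
-/

namespace Pool.Agent.Helper70.C4

/-- Edges of the rooted 3-regular tree: `(j, w)` is the edge reached from the root by first moving
along colour `j` and then turning according to `w`. -/
abbrev Edge := Fin 3 × List Bool

/-- re-rooting at the neighbour of colour `i`, as a permutation of the edges -/
def e (i : Fin 3) : Edge → Edge
  | (j, w) =>
    if j = i then
      match w with
      | [] => (i, [])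
      | false :: w' => (i + 1, w')
      | true :: w' => (i + 2, w')
    else if j = i + 1 then (i, false :: w) else (i, true :: w)

lemma e_nil (i : Fin 3) : e i (i, []) = (i, []) := by simp [e]

lemma e_e (i : Fin 3) (p : Edge) : e i (e i p) = p := by
  obtain ⟨j, w⟩ := p
  rcases w with _ | ⟨b, w⟩
  · fin_cases i <;> fin_cases j <;> simp [e]
  · cases b <;> fin_cases i <;> fin_cases j <;> simp [e]

/-- The edges in the ball of radius `r`. -/
def Ball (r : ℕ) : Set Edge := {p | p.2.length < r}

/-- The edges in the ball of radius `r` around the edge of colour `i` at the root. -/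
def EBall (i : Fin 3) (r : ℕ) : Set Edge := {p | p.2.length < r ∨ (p.1 = i ∧ p.2.length < r + 1)}

lemma ball_subset_eball (i : Fin 3) (r : ℕ) : Ball r ⊆ EBall i r := fun _ hp => Or.inl hp

lemma nil_mem_eball (i : Fin 3) (r : ℕ) : ((i, []) : Edge) ∈ EBall i r :=
  Or.inr ⟨rfl, Nat.succ_pos r⟩

lemma e_mem_eball {i : Fin 3} {r : ℕ} {p : Edge} (hp : p ∈ EBall i r) : e i p ∈ EBall i r := by
  obtain ⟨j, w⟩ := p
  by_cases hj : j = i
  · subst hj
    rcases w with _ | ⟨b, w⟩
    · rw [e_nil]; exact hp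
    · have hw : w.length < r := by
        rcases hp with h | ⟨-, h⟩
        · simp at h; omega
        · simp at h; omega
      cases b <;> simp only [e, if_true] <;> exact Or.inl hw
  · have hw : w.length < r := by
      rcases hp with h | ⟨h, -⟩
      · exact h
      · exact absurd h hj
    simp only [e, if_neg hj]
    split_ifs
    · exact Or.inr ⟨rfl, by simpa using hw⟩
    · exact Or.inr ⟨rfl, by simpa using hw⟩

/-- an edge of the ball of radius `r + 1` which after re-rooting leaves branch `i` -/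
lemma e_ball_of_ne {i : Fin 3} {r : ℕ} {p : Edge} (hp : p ∈ Ball (r + 1))
    (hne : (e i p).1 ≠ i) : e i p ∈ Ball r := by
  obtain ⟨j, w⟩ := p
  have hp' : w.length < r + 1 := hp
  by_cases hj : j = i
  · subst hj
    rcases w with _ | ⟨b, w⟩
    · rw [e_nil] at hne; exact absurd rfl hne
    · have hw : w.length < r := by simpa using hp'
      cases b <;> simp only [e, if_true] <;> exact hw
  · exfalso
    apply hne
    simp only [e, if_neg hj]
    split_ifs <;> rfl

lemma ball_succ_eball {i : Fin 3} {r : ℕ} {p : Edge} (hp : p ∈ Ball (r + 1)) (h : p.1 = i) :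
    p ∈ EBall i r := Or.inr ⟨h, hp⟩

section

variable {A : Type*} [AddCommGroup A]

/-- The nonzero elements. -/
abbrev NZ (A : Type*) [AddCommGroup A] := {a : A // a ≠ 0}

/-- Labelled trees: a root label and a nonzero element of `A` on every edge. -/
abbrev LT (Q A : Type*) [AddCommGroup A] := Q × (Edge → NZ A)

/-- Moving the root along the edge of colour `i`. -/
def tau {Q : Type*} (act : Fin 3 → A → Q → Q) (i : Fin 3) (x : LT Q A) : LT Q A :=
  (act i (x.2 (i, [])).1 x.1, fun p => x.2 (e i p))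

lemma tau_tau {Q : Type*} (act : Fin 3 → A → Q → Q) (hact : ∀ i a q, act i a (act i a q) = q)
    (i : Fin 3) (x : LT Q A) : tau act i (tau act i x) = x := by
  ext p
  · simp [tau, e_nil, hact]
  · simp [tau, e_e]

/-- agreement of two labelled trees on a set of edges (and of the root labels) -/
def Agr {Q : Type*} (F : Set Edge) (x y : LT Q A) : Prop :=
  x.1 = y.1 ∧ ∀ p ∈ F, x.2 p = y.2 p

lemma Agr.refl {Q : Type*} (F : Set Edge) (x : LT Q A) : Agr F x x := ⟨rfl, fun _ _ => rfl⟩

lemma Agr.symm {Q : Type*} {F : Set Edge} {x y : LT Q A} (h : Agr F x y) : Agr F y x :=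
  ⟨h.1.symm, fun p hp => (h.2 p hp).symm⟩

lemma Agr.trans {Q : Type*} {F : Set Edge} {x y z : LT Q A} (h : Agr F x y) (h' : Agr F y z) :
    Agr F x z := ⟨h.1.trans h'.1, fun p hp => (h.2 p hp).trans (h'.2 p hp)⟩

lemma Agr.mono {Q : Type*} {F F' : Set Edge} (hF : F ⊆ F') {x y : LT Q A} (h : Agr F' x y) :
    Agr F x y := ⟨h.1, fun p hp => h.2 p (hF hp)⟩

lemma Agr.tau {Q : Type*} (act : Fin 3 → A → Q → Q) {i : Fin 3} {r : ℕ} {x y : LT Q A}
    (h : Agr (EBall i r) x y) : Agr (EBall i r) (tau act i x) (tau act i y) := by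
  refine ⟨?_, fun p hp => ?_⟩
  · simp only [C4.tau]
    rw [h.1, h.2 _ (nil_mem_eball i r)]
  · exact h.2 _ (e_mem_eball hp)

/-- A local solution of the relaxed problem. -/
structure Sol {Q : Type*} (act : Fin 3 → A → Q → Q) {V : Type*} (G : SimpleGraph V) (r : ℕ)
    (φ : Fin 3 → LT Q A → Lab V) : Prop where
  loc : ∀ i x y, Agr (Ball r) x y → φ i x = φ i y
  cfg : ∀ x, Config (fun i => φ i x)
  edge : ∀ i x, CE G (φ i x) (φ i (tau act i x))

variable {W : Type*} {act : Fin 3 → A → W → W} {V : Type*} {G : SimpleGraph V}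

/-- the set of labels of `x` seen from the edge ball -/
def SS (r : ℕ) (φ : Fin 3 → LT W A → Lab V) (i : Fin 3) (x : LT W A) : Set (Lab V) :=
  {ℓ | ∃ y, Agr (EBall i r) y x ∧ φ i y = ℓ}

lemma SS_congr {r : ℕ} {φ : Fin 3 → LT W A → Lab V} {i : Fin 3} {x y : LT W A}
    (h : Agr (EBall i r) x y) : SS r φ i x = SS r φ i y := by
  ext ℓ
  constructor
  · rintro ⟨z, hz, rfl⟩
    exact ⟨z, hz.trans h, rfl⟩
  · rintro ⟨z, hz, rfl⟩
    exact ⟨z, hz.trans h.symm, rfl⟩

/-- The two sets seen across an edge form a biclique. -/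
theorem SS_biclique (hact : ∀ i a q, act i a (act i a q) = q) {r : ℕ}
    {φ : Fin 3 → LT W A → Lab V} (h : Sol act G (r + 1) φ) (i : Fin 3) (x : LT W A) :
    ∀ s ∈ SS r φ i x, ∀ t ∈ SS r φ i (tau act i x), CE G s t := by
  rintro _ ⟨x', hx', rfl⟩ _ ⟨y', hy', rfl⟩
  -- transport `y'` back
  have hx'' : Agr (EBall i r) (tau act i y') x := by
    have := hy'.tau act
    rwa [tau_tau act hact] at this
  set x'' := tau act i y' with hx''def
  set z : LT W A := (x.1, fun p => if p.1 = i then x''.2 p else x'.2 p) with hz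
  have hz1 : Agr (Ball (r + 1)) z x' := by
    refine ⟨hx'.1.symm, fun p hp => ?_⟩
    by_cases hpi : p.1 = i
    · have hpe := ball_succ_eball hp hpi
      simp only [hz, if_pos hpi]
      rw [hx''.2 p hpe, hx'.2 p hpe]
    · simp only [hz, if_neg hpi]
  have hz2 : Agr (Ball (r + 1)) (tau act i z) y' := by
    refine ⟨?_, fun p hp => ?_⟩
    · have h1 := hy'.1
      rw [h1]
      simp only [tau, hz, if_true]
      rw [hx''.2 _ (nil_mem_eball i r)]
    · have hy2 : y'.2 p = x''.2 (e i p) := by
        simp only [hx''def, tau, e_e]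
      by_cases hpi : (e i p).1 = i
      · simp only [tau, hz, if_pos hpi]
        rw [hy2]
      · have hb : e i p ∈ EBall i r := ball_subset_eball i r (e_ball_of_ne hp hpi)
        simp only [tau, hz, if_neg hpi]
        rw [hy2, hx'.2 _ hb, hx''.2 _ hb]
  have := h.edge i z
  rwa [h.loc i z x' hz1, h.loc i _ y' hz2] at this

open Classical in
/-- a starred label for an ordered pair of sets -/
noncomputable def pick (G : SimpleGraph V) (S T : Set (Lab V)) : Star V :=
  if h : ∃ u : Star V, (∀ s ∈ S, SMem G s u) ∧ ∀ t ∈ T, SMem G t u.dual then h.choose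
  else Star.top

lemma pick_spec (hG : C4Free G) {S T : Set (Lab V)} (h : ∀ s ∈ S, ∀ t ∈ T, CE G s t) :
    (∀ s ∈ S, SMem G s (pick G S T)) ∧ ∀ t ∈ T, SMem G t (pick G S T).dual := by
  have := biclique hG S T h
  rw [pick, dif_pos this]
  exact this.choose_spec

variable [LinearOrder W]

/-- the starred label of a half-edge -/
noncomputable def psi (act : Fin 3 → A → W → W) (G : SimpleGraph V) (r : ℕ)
    (φ : Fin 3 → LT W A → Lab V) (i : Fin 3) (x : LT W A) : Star V :=
  if x.1 < (tau act i x).1 then pick G (SS r φ i x) (SS r φ i (tau act i x))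
  else (pick G (SS r φ i (tau act i x)) (SS r φ i x)).dual

lemma psi_congr {r : ℕ} {φ : Fin 3 → LT W A → Lab V} {i : Fin 3} {x y : LT W A}
    (h : Agr (EBall i r) x y) : psi act G r φ i x = psi act G r φ i y := by
  unfold psi
  rw [SS_congr h, SS_congr (h.tau act), h.1, (h.tau act).1]

lemma psi_tau (hact : ∀ i a q, act i a (act i a q) = q)
    (hfree : ∀ i (a : NZ A) q, act i a.1 q ≠ q) {r : ℕ}
    {φ : Fin 3 → LT W A → Lab V} (i : Fin 3) (x : LT W A) :
    psi act G r φ i (tau act i x) = (psi act G r φ i x).dual := by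
  unfold psi
  rw [tau_tau act hact]
  have hne : x.1 ≠ (tau act i x).1 := fun h => hfree i _ _ h.symm
  rcases lt_or_gt_of_ne hne with h | h
  · rw [if_pos h, if_neg (not_lt.2 h.le)]
  · rw [if_pos h, if_neg (not_lt.2 h.le), Star.dual_dual]

lemma psi_mem (hG : C4Free G) (hact : ∀ i a q, act i a (act i a q) = q) {r : ℕ}
    {φ : Fin 3 → LT W A → Lab V} (h : Sol act G (r + 1) φ) (i : Fin 3) (x : LT W A) :
    SMem G (φ i x) (psi act G r φ i x) := by
  have hmem : φ i x ∈ SS r φ i x := ⟨x, Agr.refl _ _, rfl⟩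
  unfold psi
  split_ifs
  · exact (pick_spec hG (SS_biclique hact h i x)).1 _ hmem
  · have hb := SS_biclique hact h i (tau act i x)
    rw [tau_tau act hact] at hb
    exact (pick_spec hG hb).2 _ hmem

/-- the starred labels seen from the ball -/
def TT (act : Fin 3 → A → W → W) (G : SimpleGraph V) (r : ℕ)
    (φ : Fin 3 → LT W A → Lab V) (x : LT W A) (i : Fin 3) : Set (Star V) :=
  {t | ∃ y, Agr (Ball r) y x ∧ psi act G r φ i y = t}

lemma TT_congr {r : ℕ} {φ : Fin 3 → LT W A → Lab V} {x y : LT W A}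
    (h : Agr (Ball r) x y) : TT act G r φ x = TT act G r φ y := by
  funext i
  ext t
  constructor
  · rintro ⟨z, hz, rfl⟩
    exact ⟨z, hz.trans h, rfl⟩
  · rintro ⟨z, hz, rfl⟩
    exact ⟨z, hz.trans h.symm, rfl⟩

/-- The elimination step. -/
theorem eliminate (hG : C4Free G) (hact : ∀ i a q, act i a (act i a q) = q)
    (hfree : ∀ i (a : NZ A) q, act i a.1 q ≠ q) {r : ℕ}
    {φ : Fin 3 → LT W A → Lab V} (h : Sol act G (r + 1) φ) :
    ∃ φ' : Fin 3 → LT W A → Lab (V ⊕ Sym2 V), Sol act (plus G) r φ' := by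
  classical
  have huniv : ∀ x, ∃ L : Fin 3 → Lab (V ⊕ Sym2 V), Config L ∧
      ∀ i, ∀ t ∈ TT act G r φ x i, InSet G (L i) t := by
    intro x
    refine universal hG _ (fun i => ⟨_, x, Agr.refl _ _, rfl⟩) ?_
    intro t ht
    choose y hy hyt using ht
    set z : LT W A := (x.1, fun p => (y p.1).2 p) with hz
    have hzy : ∀ i, Agr (EBall i r) z (y i) := by
      intro i
      refine ⟨(hy i).1.symm, fun p hp => ?_⟩
      by_cases hpi : p.1 = i
      · simp only [hz, hpi]
      · have hb : p ∈ Ball r := by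
          rcases hp with hp | hp
          · exact hp
          · exact absurd hp.1 hpi
        simp only [hz]
        rw [(hy p.1).2 p hb, (hy i).2 p hb]
    refine ⟨fun i => φ i z, h.cfg z, fun i => ?_⟩
    have h1 := psi_mem hG hact h i z
    rwa [psi_congr (hzy i), hyt i] at h1
  let choice : (Fin 3 → Set (Star V)) → Fin 3 → Lab (V ⊕ Sym2 V) := fun T =>
    if hT : ∃ L : Fin 3 → Lab (V ⊕ Sym2 V), Config L ∧ ∀ i, ∀ t ∈ T i, InSet G (L i) t then
      hT.choose else fun _ => Lab.bot
  have hchoice : ∀ x, Config (choice (TT act G r φ x)) ∧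
      ∀ i, ∀ t ∈ TT act G r φ x i, InSet G (choice (TT act G r φ x) i) t := by
    intro x
    simp only [choice]
    rw [dif_pos (huniv x)]
    exact (huniv x).choose_spec
  refine ⟨fun i x => choice (TT act G r φ x) i, ?_, ?_, ?_⟩
  · intro i x y hxy
    show choice _ i = choice _ i
    rw [TT_congr hxy]
  · intro x
    exact (hchoice x).1
  · intro i x
    have h1 := (hchoice x).2 i (psi act G r φ i x) ⟨x, Agr.refl _ _, rfl⟩
    have h2 := (hchoice (tau act i x)).2 i (psi act G r φ i (tau act i x)) ⟨_, Agr.refl _ _, rfl⟩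
    rw [psi_tau hact hfree] at h2
    exact edge_next h1 h2

end

end Pool.Agent.Helper70.C4
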