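import Pool.Agent.Helper70.C4.Labels

/-!
# One step of the free closure, and the classification of universal triples
-/

namespace Pool.Agent.Helper70.C4

/-- one step of the free closure: a new common neighbour for every pair without one -/
def plus {V : Type*} (G : SimpleGraph V) : SimpleGraph (V ⊕ Sym2 V) where
  Adj
    | Sum.inl a, Sum.inl b => G.Adj a b
    | Sum.inl a, Sum.inr p => a ∈ p ∧ ¬ p.IsDiag ∧ ¬ ∃ c, ∀ x ∈ p, G.Adj x c
    | Sum.inr p, Sum.inl a => a ∈ p ∧ ¬ p.IsDiag ∧ ¬ ∃ c, ∀ x ∈ p, G.Adj x c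
    | Sum.inr _, Sum.inr _ => False
  symm := ⟨by
    rintro (a | p) (b | q) h
    · exact SimpleGraph.Adj.symm (G := G) h
    · exact h
    · exact h
    · exact h⟩
  loopless := ⟨by
    rintro (a | p) h
    · exact G.loopless.irrefl a h
    · exact h⟩

variable {V : Type*} {G : SimpleGraph V}

lemma plus_common {a b : V} (hab : a ≠ b) :
    ∃ c, (plus G).Adj (Sum.inl a) c ∧ (plus G).Adj (Sum.inl b) c := by
  by_cases h : ∃ c, ∀ x ∈ s(a, b), G.Adj x c
  · obtain ⟨c, hc⟩ := h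
    exact ⟨Sum.inl c, hc a (Sym2.mem_mk_left a b), hc b (Sym2.mem_mk_right a b)⟩
  · exact ⟨Sum.inr s(a, b), ⟨Sym2.mem_mk_left a b, by simpa using hab, h⟩,
      ⟨Sym2.mem_mk_right a b, by simpa using hab, h⟩⟩

lemma plus_c4Free (hG : C4Free G) : C4Free (plus G) := by
  rintro (a | p) (b | q) (c | r) (d | s) hab h1 h2 h3 h4
  · have hab' : a ≠ b := fun h => hab (by rw [h])
    rw [hG hab' h1 h2 h3 h4]
  · exfalso
    have hab' : a ≠ b := fun h => hab (by rw [h])
    obtain ⟨m1, hd, hn⟩ := h3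
    obtain ⟨m2, -, -⟩ := h4
    have hs : s = s(a, b) := ((Sym2.mem_and_mem_iff hab').1 ⟨m1, m2⟩)
    subst hs
    apply hn
    refine ⟨c, fun x hx => ?_⟩
    rcases Sym2.mem_iff.1 hx with rfl | rfl
    · exact h1
    · exact h2
  · exfalso
    have hab' : a ≠ b := fun h => hab (by rw [h])
    obtain ⟨m1, hd, hn⟩ := h1
    obtain ⟨m2, -, -⟩ := h2
    have hs : r = s(a, b) := ((Sym2.mem_and_mem_iff hab').1 ⟨m1, m2⟩)
    subst hs
    apply hn
    refine ⟨d, fun x hx => ?_⟩
    rcases Sym2.mem_iff.1 hx with rfl | rfl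
    · exact h3
    · exact h4
  · have hab' : a ≠ b := fun h => hab (by rw [h])
    have hr : r = s(a, b) := ((Sym2.mem_and_mem_iff hab').1 ⟨h1.1, h2.1⟩)
    have hs : s = s(a, b) := ((Sym2.mem_and_mem_iff hab').1 ⟨h3.1, h4.1⟩)
    rw [hr, hs]
  · -- a = inl, b = inr q, c, d inl
    by_contra hcd
    have hcd' : c ≠ d := fun h => hcd (by rw [h])
    have hq : q = s(c, d) := ((Sym2.mem_and_mem_iff hcd').1 ⟨h2.1, h4.1⟩)
    apply h2.2.2
    refine ⟨a, fun x hx => ?_⟩
    rw [hq] at hx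
    rcases Sym2.mem_iff.1 hx with rfl | rfl
    · exact SimpleGraph.Adj.symm (G := G) h1
    · exact SimpleGraph.Adj.symm (G := G) h3
  · exact h4.elim
  · exact h2.elim
  · exact h2.elim
  · by_contra hcd
    have hcd' : c ≠ d := fun h => hcd (by rw [h])
    have hq : p = s(c, d) := ((Sym2.mem_and_mem_iff hcd').1 ⟨h1.1, h3.1⟩)
    apply h1.2.2
    refine ⟨b, fun x hx => ?_⟩
    rw [hq] at hx
    rcases Sym2.mem_iff.1 hx with rfl | rfl
    · exact SimpleGraph.Adj.symm (G := G) h2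
    · exact SimpleGraph.Adj.symm (G := G) h4
  · exact h3.elim
  · exact h1.elim
  · exact h1.elim
  · by_contra hcd
    have hcd' : c ≠ d := fun h => hcd (by rw [h])
    have hp : p = s(c, d) := ((Sym2.mem_and_mem_iff hcd').1 ⟨h1.1, h3.1⟩)
    have hq : q = s(c, d) := ((Sym2.mem_and_mem_iff hcd').1 ⟨h2.1, h4.1⟩)
    exact hab (by rw [hp, hq])
  · exact h3.elim
  · exact h1.elim
  · exact h1.elim

lemma plus_colorable {m : ℕ} (hm : 3 ≤ m) (hc : G.Colorable m) : (plus G).Colorable m := by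
  classical
  obtain ⟨C⟩ := hc
  have key : ∀ p : Sym2 V, ∃ k : Fin m, ∀ a ∈ p, C a ≠ k := by
    intro p
    induction p using Sym2.ind with
    | _ x y =>
      have : ∃ k : Fin m, k ∉ ({C x, C y} : Finset (Fin m)) := by
        by_contra hcon
        push Not at hcon
        have h1 : (Finset.univ : Finset (Fin m)) ⊆ {C x, C y} := fun k _ => hcon k
        have h2 := Finset.card_le_card h1
        have h3 : ({C x, C y} : Finset (Fin m)).card ≤ 2 := Finset.card_le_two
        rw [Finset.card_univ, Fintype.card_fin] at h2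
        omega
      obtain ⟨k, hk⟩ := this
      refine ⟨k, fun a ha => ?_⟩
      rintro rfl
      apply hk
      rcases Sym2.mem_iff.1 ha with rfl | rfl <;> simp
  choose f hf using key
  refine ⟨SimpleGraph.Coloring.mk (fun v => Sum.elim (fun a => C a) f v) ?_⟩
  rintro (a | p) (b | q) h
  · exact C.valid h
  · exact hf q a h.1
  · exact (hf p b h.1).symm
  · exact h.elim

/-- The starred labels that a label of the next level stands for. -/
def InSet (G : SimpleGraph V) : Lab (V ⊕ Sym2 V) → Star V → Prop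
  | Lab.bot, _ => True
  | _, Star.top => True
  | Lab.pt h, Star.pt b => h = Sum.inl b
  | Lab.pt h, Star.nb b => (plus G).Adj (Sum.inl b) h
  | Lab.nb c, Star.nb b => c = Sum.inl b
  | _, _ => False

lemma InSet_top (L : Lab (V ⊕ Sym2 V)) : InSet G L Star.top := by
  cases L <;> simp [InSet]

/-- The new edge relation follows from the starred one. -/
theorem edge_next {L L' : Lab (V ⊕ Sym2 V)} {t : Star V} (h : InSet G L t)
    (h' : InSet G L' t.dual) : CE (plus G) L L' := by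
  cases t <;> cases L <;> cases L' <;> simp_all [InSet, CE, Star.dual]
  · exact SimpleGraph.Adj.symm h

/-- Abstract version of the classification. -/
theorem abstract_universal {α β : Type*} (P : α → β → Prop) (heavy : α → Prop)
    (F1 : ∀ u u' h h', ¬ (u = u' ∧ heavy u) → P u h → P u' h → P u h' → P u' h' → h = h')
    (F2 : ∀ u u', u ≠ u' → heavy u → heavy u' → ∃ h, P u h ∧ P u' h)
    {A B C : Set α} (hA : A.Nonempty) (hB : B.Nonempty) (hC : C.Nonempty)
    (F3 : ∀ a ∈ A, ∀ b ∈ B, ∀ c ∈ C, (a = b ∧ heavy a) ∨ (b = c ∧ heavy b) ∨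
      (a = c ∧ heavy a) ∨ ∃ h, P a h ∧ P b h ∧ P c h) :
    (∃ h, (∀ a ∈ A, P a h) ∧ (∀ b ∈ B, P b h) ∧ ∀ c ∈ C, P c h) ∨
      ∃ u, heavy u ∧ ((A = {u} ∧ B = {u}) ∨ (B = {u} ∧ C = {u}) ∨ (A = {u} ∧ C = {u})) := by
  classical
  by_cases hAB : ∀ a ∈ A, ∀ b ∈ B, a = b ∧ heavy a
  · right
    obtain ⟨a, ha⟩ := hA
    obtain ⟨b, hb⟩ := hB
    have e := hAB a ha b hb
    refine ⟨a, e.2, Or.inl ⟨?_, ?_⟩⟩
    · ext x
      constructor
      · intro hx
        have := (hAB x hx b hb).1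
        rw [Set.mem_singleton_iff, this, e.1]
      · rintro rfl; exact ha
    · ext x
      constructor
      · intro hx
        exact (hAB a ha x hx).1.symm
      · rintro rfl
        rw [e.1]; exact hb
  push Not at hAB
  obtain ⟨a0, ha0, b0, hb0, hbad'⟩ := hAB
  have hbad : ¬ (a0 = b0 ∧ heavy a0) := fun h => hbad' h.1 h.2
  have hbad2 : ¬ (b0 = a0 ∧ heavy b0) := fun h => hbad ⟨h.1.symm, h.1 ▸ h.2⟩
  by_cases hnot : ∃ u, heavy u ∧
      ((A = {u} ∧ B = {u}) ∨ (B = {u} ∧ C = {u}) ∨ (A = {u} ∧ C = {u}))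
  · exact Or.inr hnot
  left
  have hAC : ∀ u, heavy u → C = {u} → ∃ a ∈ A, a ≠ u := by
    intro u hu hCu
    by_contra hcon
    push Not at hcon
    apply hnot
    refine ⟨u, hu, Or.inr (Or.inr ⟨?_, hCu⟩)⟩
    obtain ⟨a, ha⟩ := hA
    ext x
    constructor
    · exact fun hx => hcon x hx
    · rintro rfl
      rw [← hcon a ha]; exact ha
  have hBC : ∀ u, heavy u → C = {u} → ∃ b ∈ B, b ≠ u := by
    intro u hu hCu
    by_contra hcon
    push Not at hcon
    apply hnot
    refine ⟨u, hu, Or.inr (Or.inl ⟨?_, hCu⟩)⟩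
    obtain ⟨a, ha⟩ := hB
    ext x
    constructor
    · exact fun hx => hcon x hx
    · rintro rfl
      rw [← hcon a ha]; exact ha
  obtain ⟨c0, hc0⟩ := hC
  -- the bad pair has a common point
  have hcommon : ∃ h, P a0 h ∧ P b0 h := by
    by_contra hno
    have hall : ∀ c ∈ C, (a0 = c ∧ heavy a0) ∨ (b0 = c ∧ heavy b0) := by
      intro c hc
      rcases F3 a0 ha0 b0 hb0 c hc with h | h | h | ⟨h, h1, h2, -⟩
      · exact absurd h hbad
      · exact Or.inr h
      · exact Or.inl h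
      · exact absurd ⟨h, h1, h2⟩ hno
    have hnb : ¬ (heavy a0 ∧ heavy b0) := by
      rintro ⟨h1, h2⟩
      by_cases e : a0 = b0
      · exact hbad ⟨e, h1⟩
      · exact hno (F2 a0 b0 e h1 h2)
    rcases hall c0 hc0 with ⟨e, hv⟩ | ⟨e, hv⟩
    · have hCe : C = {a0} := by
        ext x
        constructor
        · intro hx
          rcases hall x hx with ⟨e', -⟩ | ⟨-, hv'⟩
          · exact e'.symm
          · exact absurd ⟨hv, hv'⟩ hnb
        · rintro rfl
          rw [e]; exact hc0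
      obtain ⟨a1, ha1, hne⟩ := hAC a0 hv hCe
      rcases F3 a1 ha1 b0 hb0 a0 (by rw [hCe]; rfl) with h | h | h | ⟨h, -, h2, h3⟩
      · exact hnb ⟨hv, h.1 ▸ h.2⟩
      · exact hnb ⟨hv, h.2⟩
      · exact hne h.1
      · exact hno ⟨h, h3, h2⟩
    · have hCe : C = {b0} := by
        ext x
        constructor
        · intro hx
          rcases hall x hx with ⟨-, hv'⟩ | ⟨e', -⟩
          · exact absurd ⟨hv', hv⟩ hnb
          · exact e'.symm
        · rintro rfl
          rw [e]; exact hc0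
      obtain ⟨b1, hb1, hne⟩ := hBC b0 hv hCe
      rcases F3 a0 ha0 b1 hb1 b0 (by rw [hCe]; rfl) with h | h | h | ⟨h, h1, -, h3⟩
      · exact hnb ⟨h.2, hv⟩
      · exact hne h.1
      · exact hnb ⟨h.2, hv⟩
      · exact hno ⟨h, h1, h3⟩
  obtain ⟨h, ph1, ph2⟩ := hcommon
  have hPC : ∀ c ∈ C, P c h := by
    intro c hc
    rcases F3 a0 ha0 b0 hb0 c hc with e | e | e | ⟨h', h1, h2, h3⟩
    · exact absurd e hbad
    · exact e.1 ▸ ph2
    · exact e.1 ▸ ph1
    · rw [F1 a0 b0 h h' hbad ph1 ph2 h1 h2]; exact h3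
  -- first case of claim A and claim B
  have hA1 : ∀ c ∈ C, ¬ (b0 = c ∧ heavy b0) → ∀ a ∈ A, P a h := by
    intro c hc hb a ha
    rcases F3 a ha b0 hb0 c hc with e | e | e | ⟨h', h1, h2, h3⟩
    · rw [e.1]; exact ph2
    · exact absurd e hb
    · rw [e.1]; exact hPC c hc
    · rw [F1 b0 c h h' hb ph2 (hPC c hc) h2 h3]; exact h1
  have hB1 : ∀ c ∈ C, ¬ (a0 = c ∧ heavy a0) → ∀ b ∈ B, P b h := by
    intro c hc hb b hbB
    rcases F3 a0 ha0 b hbB c hc with e | e | e | ⟨h', h1, h2, h3⟩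
    · rw [← e.1]; exact ph1
    · rw [e.1]; exact hPC c hc
    · exact absurd e hb
    · rw [F1 a0 c h h' hb ph1 (hPC c hc) h1 h3]; exact h2
  refine ⟨h, ?_, ?_, hPC⟩
  · by_cases hex : ∃ c ∈ C, ¬ (b0 = c ∧ heavy b0)
    · obtain ⟨c, hc, hcb⟩ := hex
      exact hA1 c hc hcb
    · push Not at hex
      have hCe : C = {b0} := by
        ext x
        constructor
        · exact fun hx => (hex x hx).1.symm
        · rintro rfl
          rw [(hex c0 hc0).1]; exact hc0
      have hv : heavy b0 := (hex c0 hc0).2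
      obtain ⟨b1, hb1, hne⟩ := hBC b0 hv hCe
      have hb0C : b0 ∈ C := by rw [hCe]; rfl
      have hPB := hB1 b0 hb0C hbad
      intro a ha
      rcases F3 a ha b1 hb1 b0 hb0C with e | e | e | ⟨h', h1, h2, h3⟩
      · rw [e.1]; exact hPB b1 hb1
      · exact absurd e.1 hne
      · rw [e.1]; exact ph2
      · rw [F1 b1 b0 h h' (fun e => hne e.1) (hPB b1 hb1) ph2 h2 h3]; exact h1
  · by_cases hex : ∃ c ∈ C, ¬ (a0 = c ∧ heavy a0)
    · obtain ⟨c, hc, hcb⟩ := hex
      exact hB1 c hc hcb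
    · push Not at hex
      have hCe : C = {a0} := by
        ext x
        constructor
        · exact fun hx => (hex x hx).1.symm
        · rintro rfl
          rw [(hex c0 hc0).1]; exact hc0
      have hv : heavy a0 := (hex c0 hc0).2
      obtain ⟨a1, ha1, hne⟩ := hAC a0 hv hCe
      have ha0C : a0 ∈ C := by rw [hCe]; rfl
      have hPA := hA1 a0 ha0C hbad2
      intro b hb
      rcases F3 a1 ha1 b hb a0 ha0C with e | e | e | ⟨h', h1, h2, h3⟩
      · rw [← e.1]; exact hPA a1 ha1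
      · rw [e.1]; exact ph1
      · exact absurd e.1 hne
      · rw [F1 a1 a0 h h' (fun e => hne e.1) (hPA a1 ha1) ph1 h1 h3]; exact h2

end Pool.Agent.Helper70.C4
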