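import Pool.Agent.Helper70.C4.Universal

/-!
# Universal triples of sets of starred labels
-/

namespace Pool.Agent.Helper70.C4

variable {V : Type*} {G : SimpleGraph V}

/-- points of a starred label other than `top` -/
def PT (G : SimpleGraph V) (t : Star V) (h : V ⊕ Sym2 V) : Prop :=
  t ≠ Star.top ∧ InSet G (Lab.pt h) t

/-- heavy starred labels -/
def Heavy (t : Star V) : Prop := ∃ b, t = Star.nb b

/-- contents of a good triple of starred labels without `top` -/
lemma good_triple {t : Fin 3 → Star V} (ht : ∀ i, t i ≠ Star.top)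
    (h : ∃ c : Fin 3 → Lab V, Config c ∧ ∀ i, SMem G (c i) (t i)) :
    (∃ k, ∃ b, ∀ i, i ≠ k → t i = Star.nb b) ∨ ∃ h, ∀ i, PT G (t i) h := by
  obtain ⟨c, (⟨h, hc⟩ | ⟨b, k, -, hc⟩ | ⟨k, hc, -⟩), hm⟩ := h
  · right
    refine ⟨Sum.inl h, fun i => ⟨ht i, ?_⟩⟩
    have h1 := hm i
    rw [hc i] at h1
    have h2 := ht i
    revert h1 h2
    cases t i with
    | bot => intro h1 _; simp [SMem] at h1
    | top => intro _ h2; exact absurd rfl h2
    | pt a => intro h1 _; simp [SMem] at h1; simp [InSet, h1]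
    | nb b =>
      intro h1 _
      simp [SMem] at h1
      exact h1
  · left
    refine ⟨k, b, fun i hi => ?_⟩
    have h1 := hm i
    rw [hc i hi] at h1
    have h2 := ht i
    revert h1 h2
    cases t i with
    | bot => intro h1 _; simp [SMem] at h1
    | top => intro _ h2; exact absurd rfl h2
    | pt a => intro h1 _; simp [SMem] at h1
    | nb b' =>
      intro h1 _
      simp [SMem] at h1
      rw [h1]
  · exfalso
    have h1 := hm k
    rw [hc] at h1
    have h2 := ht k
    revert h1 h2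
    cases t k <;> simp [SMem]

/-- Classification of universal triples. -/
theorem universal (hG : C4Free G) (T : Fin 3 → Set (Star V)) (hne : ∀ i, (T i).Nonempty)
    (hU : ∀ t : Fin 3 → Star V, (∀ i, t i ∈ T i) →
      ∃ c : Fin 3 → Lab V, Config c ∧ ∀ i, SMem G (c i) (t i)) :
    ∃ L : Fin 3 → Lab (V ⊕ Sym2 V), Config L ∧ ∀ i, ∀ t ∈ T i, InSet G (L i) t := by
  classical
  by_cases htop : ∃ k, ∀ t ∈ T k, t = Star.top
  · obtain ⟨k, hk⟩ := htop
    refine ⟨fun i => if i = k then Lab.top else Lab.bot, Or.inr (Or.inr ⟨k, by simp, ?_⟩), ?_⟩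
    · intro i hi; simp [hi]
    · intro i t ht
      by_cases hik : i = k
      · subst hik
        rw [hk t ht]
        exact InSet_top _
      · simp [hik, InSet]
  push Not at htop
  -- remove `top`
  set N : Fin 3 → Set (Star V) := fun i => {t | t ∈ T i ∧ t ≠ Star.top} with hN
  have hNne : ∀ i, (N i).Nonempty := fun i => by
    obtain ⟨t, ht, ht'⟩ := htop i
    exact ⟨t, ht, ht'⟩
  have hin : ∀ (L : Fin 3 → Lab (V ⊕ Sym2 V)), (∀ i, ∀ t ∈ N i, InSet G (L i) t) →
      ∀ i, ∀ t ∈ T i, InSet G (L i) t := by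
    intro L hL i t ht
    by_cases h : t = Star.top
    · rw [h]; exact InSet_top _
    · exact hL i t ⟨ht, h⟩
  have F1 : ∀ (u u' : Star V) (h h' : V ⊕ Sym2 V), ¬ (u = u' ∧ Heavy u) → PT G u h →
      PT G u' h → PT G u h' → PT G u' h' → h = h' := by
    rintro u u' h h' hn ⟨n1, h1⟩ ⟨n2, h2⟩ ⟨n3, h3⟩ ⟨n4, h4⟩
    cases u with
    | bot => exact h1.elim
    | top => exact absurd rfl n1
    | pt a => rw [(h1 : h = Sum.inl a), (h3 : h' = Sum.inl a)]
    | nb b =>
      cases u' with
      | bot => exact h2.elim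
      | top => exact absurd rfl n2
      | pt a => rw [(h2 : h = Sum.inl a), (h4 : h' = Sum.inl a)]
      | nb b' =>
        have hbb : b ≠ b' := fun e => hn ⟨by rw [e], ⟨b, rfl⟩⟩
        exact plus_c4Free hG (a := Sum.inl b) (b := Sum.inl b') (by simpa using hbb)
          h1 h2 h3 h4
  have F2 : ∀ (u u' : Star V), u ≠ u' → Heavy u → Heavy u' → ∃ h, PT G u h ∧ PT G u' h := by
    rintro u u' hne ⟨b, rfl⟩ ⟨b', rfl⟩
    have hbb : b ≠ b' := fun e => hne (by rw [e])
    obtain ⟨c, h1, h2⟩ := plus_common (G := G) hbb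
    exact ⟨c, ⟨by simp, h1⟩, ⟨by simp, h2⟩⟩
  have F3 : ∀ a ∈ N 0, ∀ b ∈ N 1, ∀ c ∈ N 2, (a = b ∧ Heavy a) ∨ (b = c ∧ Heavy b) ∨
      (a = c ∧ Heavy a) ∨ ∃ h, PT G a h ∧ PT G b h ∧ PT G c h := by
    intro a ha b hb c hc
    have hg := good_triple (G := G) (t := ![a, b, c])
      (by intro i; fin_cases i; exacts [ha.2, hb.2, hc.2])
      (hU _ (by intro i; fin_cases i; exacts [ha.1, hb.1, hc.1]))
    rcases hg with ⟨k, b', hk⟩ | ⟨h, hh⟩
    · fin_cases k
      · have h1 := hk 1 (by decide)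
        have h2 := hk 2 (by decide)
        simp at h1 h2
        exact Or.inr (Or.inl ⟨by rw [h1, h2], ⟨b', h1⟩⟩)
      · have h1 := hk 0 (by decide)
        have h2 := hk 2 (by decide)
        simp at h1 h2
        exact Or.inr (Or.inr (Or.inl ⟨by rw [h1, h2], ⟨b', h1⟩⟩))
      · have h1 := hk 0 (by decide)
        have h2 := hk 1 (by decide)
        simp at h1 h2
        exact Or.inl ⟨by rw [h1, h2], ⟨b', h1⟩⟩
    · exact Or.inr (Or.inr (Or.inr ⟨h, hh 0, hh 1, hh 2⟩))
  rcases abstract_universal (PT G) Heavy F1 F2 (hNne 0) (hNne 1) (hNne 2) F3 with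
    ⟨h, hA, hB, hC⟩ | ⟨u, ⟨b, rfl⟩, hcase⟩
  · refine ⟨fun _ => Lab.pt h, Or.inl ⟨h, fun _ => rfl⟩, hin _ ?_⟩
    intro i t ht
    fin_cases i
    · exact (hA t ht).2
    · exact (hB t ht).2
    · exact (hC t ht).2
  · have main : ∀ k : Fin 3, (∀ i, i ≠ k → N i = {Star.nb b}) →
        ∃ L : Fin 3 → Lab (V ⊕ Sym2 V), Config L ∧ ∀ i, ∀ t ∈ T i, InSet G (L i) t := by
      intro k hk
      refine ⟨fun i => if i = k then Lab.bot else Lab.nb (Sum.inl b),
        Or.inr (Or.inl ⟨Sum.inl b, k, by simp, fun i hi => by simp [hi]⟩), hin _ ?_⟩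
      intro i t ht
      by_cases hik : i = k
      · simp [hik, InSet]
      · rw [hk i hik] at ht
        rw [Set.mem_singleton_iff] at ht
        simp [hik, InSet, ht]
    rcases hcase with ⟨h1, h2⟩ | ⟨h1, h2⟩ | ⟨h1, h2⟩
    · refine main 2 fun i hi => ?_
      fin_cases i
      · exact h1
      · exact h2
      · exact absurd rfl hi
    · refine main 0 fun i hi => ?_
      fin_cases i
      · exact absurd rfl hi
      · exact h1
      · exact h2
    · refine main 1 fun i hi => ?_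
      fin_cases i
      · exact h1
      · exact absurd rfl hi
      · exact h2

end Pool.Agent.Helper70.C4
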