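import Pool.Agent.Helper70.C4.Zero

/-!
# Three copies of `A` in a compact group, freely independent

`A` acts in three ways on the finite set of reduced words of length at most `n`.
-/

namespace Pool.Agent.Helper70.C4

variable {A : Type*} [AddCommGroup A]

/-- reduced words of length at most `n` -/
def Good (n : ℕ) (l : List (Fin 3 × NZ A)) : Prop :=
  l.length ≤ n ∧ l.IsChain (fun p q => p.1 ≠ q.1)

/-- the head has colour different from `i` -/
def HeadNe (i : Fin 3) (l : List (Fin 3 × NZ A)) : Prop := ∀ p ∈ l.head?, p.1 ≠ i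

open Classical in
/-- put `(i, a)` in front if possible -/
noncomputable def cn (n : ℕ) (i : Fin 3) (a : A) (t : List (Fin 3 × NZ A)) :
    List (Fin 3 × NZ A) :=
  if h : a = 0 then t else if t.length < n then (i, ⟨a, h⟩) :: t else t

/-- split off the part of colour `i` at the head -/
def sp (i : Fin 3) : List (Fin 3 × NZ A) → A × List (Fin 3 × NZ A)
  | [] => (0, [])
  | p :: t => if p.1 = i then (p.2.1, t) else (0, p :: t)

/-- the action of `a` by colour `i` on words -/
noncomputable def push (n : ℕ) (i : Fin 3) (a : A) (l : List (Fin 3 × NZ A)) :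
    List (Fin 3 × NZ A) := cn n i (a + (sp i l).1) (sp i l).2

lemma cn_zero (n : ℕ) (i : Fin 3) (t : List (Fin 3 × NZ A)) : cn n i 0 t = t := by
  simp [cn]

lemma cn_ge {n : ℕ} (i : Fin 3) (a : A) {t : List (Fin 3 × NZ A)} (h : n ≤ t.length) :
    cn n i a t = t := by
  unfold cn
  split_ifs with h1 h2
  · rfl
  · omega
  · rfl

lemma cn_lt {n : ℕ} (i : Fin 3) {a : A} (ha : a ≠ 0) {t : List (Fin 3 × NZ A)}
    (h : t.length < n) : cn n i a t = (i, ⟨a, ha⟩) :: t := by
  unfold cn
  rw [dif_neg ha, if_pos h]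

lemma sp_headNe {i : Fin 3} {t : List (Fin 3 × NZ A)} (h : HeadNe i t) : sp i t = (0, t) := by
  cases t with
  | nil => rfl
  | cons p t =>
    have : p.1 ≠ i := h p (by simp)
    simp [sp, this]

lemma sp_cn {n : ℕ} {i : Fin 3} {t : List (Fin 3 × NZ A)} (h : HeadNe i t) (a : A)
    (hl : t.length < n) : sp i (cn n i a t) = (a, t) := by
  by_cases ha : a = 0
  · rw [ha, cn_zero, sp_headNe h]
  · rw [cn_lt i ha hl]
    simp [sp]

lemma sp_spec {n : ℕ} {i : Fin 3} {l : List (Fin 3 × NZ A)} (h : Good n l) :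
    Good n (sp i l).2 ∧ HeadNe i (sp i l).2 ∧
      (((sp i l).1 = 0 ∧ (sp i l).2 = l) ∨
        ∃ c : NZ A, (sp i l).1 = c.1 ∧ (sp i l).2.length < n ∧ l = (i, c) :: (sp i l).2) := by
  cases l with
  | nil => exact ⟨h, by simp [HeadNe, sp], Or.inl ⟨rfl, rfl⟩⟩
  | cons p t =>
    by_cases hp : p.1 = i
    · have hs : sp i (p :: t) = (p.2.1, t) := by simp [sp, hp]
      rw [hs]
      obtain ⟨hl, hc⟩ := h
      refine ⟨⟨by show t.length ≤ n; simp at hl; omega, hc.tail⟩, ?_,
        Or.inr ⟨p.2, rfl, by simp at hl; simpa using hl, ?_⟩⟩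
      · intro q hq
        cases t with
        | nil => simp at hq
        | cons q' t' =>
          simp at hq
          subst hq
          have := (List.isChain_cons_cons.1 hc).1
          rw [hp] at this
          exact this.symm
      · simp [← hp]
    · have hs : sp i (p :: t) = (0, p :: t) := by simp [sp, hp]
      rw [hs]
      refine ⟨h, ?_, Or.inl ⟨rfl, rfl⟩⟩
      intro q hq
      simp at hq
      subst hq
      exact hp

lemma good_cn {n : ℕ} {i : Fin 3} {t : List (Fin 3 × NZ A)} (hg : Good n t) (h : HeadNe i t)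
    (a : A) : Good n (cn n i a t) := by
  unfold cn
  split_ifs with h1 h2
  · exact hg
  · refine ⟨by simpa using h2, ?_⟩
    cases t with
    | nil => exact List.isChain_singleton _
    | cons q t =>
      refine List.isChain_cons_cons.2 ⟨?_, hg.2⟩
      exact (h q (by simp)).symm
  · exact hg

lemma good_push {n : ℕ} (i : Fin 3) (a : A) {l : List (Fin 3 × NZ A)} (hg : Good n l) :
    Good n (push n i a l) := good_cn (sp_spec hg).1 (sp_spec hg).2.1 _

lemma push_push {n : ℕ} (i : Fin 3) (a b : A) {l : List (Fin 3 × NZ A)} (hg : Good n l) :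
    push n i a (push n i b l) = push n i (a + b) l := by
  obtain ⟨h1, h2, h3⟩ := sp_spec (i := i) hg
  unfold push
  rcases lt_or_ge (sp i l).2.length n with hl | hl
  · rw [sp_cn h2 _ hl, add_assoc]
  · rw [cn_ge i _ hl, sp_headNe h2, cn_ge i _ hl, cn_ge i _ hl]

lemma push_zero {n : ℕ} (i : Fin 3) {l : List (Fin 3 × NZ A)} (hg : Good n l) :
    push n i 0 l = l := by
  obtain ⟨h1, h2, h3⟩ := sp_spec (i := i) hg
  unfold push
  rw [zero_add]
  rcases h3 with ⟨h3, h4⟩ | ⟨c, h3, h4, h5⟩
  · rw [h3, h4, cn_zero]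
  · rw [h3, cn_lt i c.2 h4]
    exact h5.symm

/-- the type of reduced words of length at most `n` -/
def Wd (A : Type*) [AddCommGroup A] (n : ℕ) := {l : List (Fin 3 × NZ A) // Good n l}

instance [Finite A] (n : ℕ) : Finite (Wd A n) := by
  have : Finite {l : List (Fin 3 × NZ A) // l.length ≤ n} :=
    (List.finite_length_le (Fin 3 × NZ A) n).to_subtype
  exact Finite.of_injective
    (fun l : Wd A n => (⟨l.1, l.2.1⟩ : {l : List (Fin 3 × NZ A) // l.length ≤ n}))
    (fun l l' h => by
      apply Subtype.ext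
      simpa using h)

/-- the permutation of words given by `a` and the colour `i` -/
noncomputable def alpha (n : ℕ) (i : Fin 3) (a : A) : Equiv.Perm (Wd A n) where
  toFun l := ⟨push n i a l.1, good_push i a l.2⟩
  invFun l := ⟨push n i (-a) l.1, good_push i (-a) l.2⟩
  left_inv l := by
    apply Subtype.ext
    simp only
    rw [push_push i _ _ l.2, neg_add_cancel, push_zero i l.2]
  right_inv l := by
    apply Subtype.ext
    simp only
    rw [push_push i _ _ l.2, add_neg_cancel, push_zero i l.2]

lemma alpha_mul (n : ℕ) (i : Fin 3) (a b : A) : alpha n i a * alpha n i b = alpha n i (a + b) := by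
  apply Equiv.ext
  intro l
  apply Subtype.ext
  exact push_push i a b l.2

lemma alpha_zero (n : ℕ) (i : Fin 3) : alpha n i (0 : A) = 1 := by
  apply Equiv.ext
  intro l
  apply Subtype.ext
  exact push_zero i l.2

/-- the empty word -/
def wnil (A : Type*) [AddCommGroup A] (n : ℕ) : Wd A n := ⟨[], Nat.zero_le _, List.isChain_nil⟩

/-- product of the permutations of a list -/
noncomputable def pr (n : ℕ) (L : List (Fin 3 × NZ A)) : Equiv.Perm (Wd A n) :=
  (L.map (fun q => alpha n q.1 q.2.1)).prod

lemma pr_nil (n : ℕ) : pr n ([] : List (Fin 3 × NZ A)) = 1 := rfl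

lemma pr_cons (n : ℕ) (q : Fin 3 × NZ A) (L : List (Fin 3 × NZ A)) :
    pr n (q :: L) = alpha n q.1 q.2.1 * pr n L := by
  simp [pr]

lemma pr_apply (n : ℕ) (L : List (Fin 3 × NZ A)) (hL : Good n L) :
    (pr n L (wnil A n)).1 = L := by
  induction L with
  | nil => rfl
  | cons q L ih =>
    have hg : Good n L := ⟨by have := hL.1; simp at this; omega, hL.2.tail⟩
    rw [pr_cons]
    show push n q.1 q.2.1 (pr n L (wnil A n)).1 = q :: L
    rw [ih hg]
    have hh : HeadNe q.1 L := by
      intro p hp
      cases L with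
      | nil => simp at hp
      | cons p' L' =>
        simp at hp
        subst hp
        exact (List.isChain_cons_cons.1 hL.2).1.symm
    unfold push
    rw [sp_headNe hh]
    simp only [add_zero]
    rw [cn_lt q.1 q.2.2 (by have := hL.1; simp at this; omega)]

lemma pr_ne_one {n : ℕ} {L : List (Fin 3 × NZ A)} (hL : Good n L) (hne : L ≠ []) :
    pr n L ≠ 1 := by
  intro h
  have := pr_apply n L hL
  rw [h] at this
  exact hne this.symm

end Pool.Agent.Helper70.C4
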