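import Pool.Agent.Helper70.C4.Tree

/-!
# No local solution of the relaxed problem
-/

namespace Pool.Agent.Helper70.C4

variable {A : Type*} [AddCommGroup A] {W : Type*} {act : Fin 3 → A → W → W}

/-- Pigeonhole: if the orbits of the three actions are larger than the number of classes, some
class contains an edge of each colour. -/
theorem pigeon [Fintype A] [Fintype W] [Nonempty W] {K : Type*} [Fintype K]
    (hadd : ∀ i a b w, act i a (act i b w) = act i (a + b) w) (hzero : ∀ i w, act i 0 w = w)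
    (hcard : Fintype.card K < Fintype.card A) (cls : W → K) :
    ∃ k, ∀ i, ∃ w, ∃ a : NZ A, cls w = k ∧ cls (act i a.1 w) = k := by
  classical
  by_contra hcon
  push Not at hcon
  choose i hi using hcon
  -- the injection `W × A → K × W`
  have hinj : Function.Injective
      (fun p : W × A => ((cls p.1, act (i (cls p.1)) p.2 p.1) : K × W)) := by
    rintro ⟨w, a⟩ ⟨w', a'⟩ h
    simp only [Prod.mk.injEq] at h
    obtain ⟨h1, h2⟩ := h
    rw [← h1] at h2
    set j := i (cls w) with hj
    have h3 : w' = act j (-a' + a) w := by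
      have := congrArg (act j (-a')) h2
      rw [hadd, hadd, neg_add_cancel, hzero] at this
      exact this.symm
    by_cases ha : -a' + a = 0
    · have haa : a = a' := by
        have := eq_neg_of_add_eq_zero_right ha
        rw [this, neg_neg]
      rw [ha, hzero] at h3
      rw [h3, haa]
    · exfalso
      apply hi (cls w) w ⟨-a' + a, ha⟩ rfl
      rw [← hj, ← h3, ← h1]
  have := Fintype.card_le_of_injective _ hinj
  rw [Fintype.card_prod, Fintype.card_prod, mul_comm] at this
  have hW : 0 < Fintype.card W := Fintype.card_pos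
  have := Nat.le_of_mul_le_mul_right this hW
  omega

/-- No `0`-local solution. -/
theorem no_zero [Fintype A] [Nontrivial A] [Fintype W] [Nonempty W] {V : Type*}
    {G : SimpleGraph V} {m : ℕ} (hm : G.Colorable m)
    (hadd : ∀ i a b w, act i a (act i b w) = act i (a + b) w) (hzero : ∀ i w, act i 0 w = w)
    (hcard : m + 6 < Fintype.card A)
    (φ : Fin 3 → LT W A → Lab V) (h : Sol act G 0 φ) : False := by
  classical
  obtain ⟨C⟩ := hm
  obtain ⟨a0, ha0⟩ := exists_ne (0 : A)
  -- the labels as functions of the root label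
  let s0 : Edge → NZ A := fun _ => ⟨a0, ha0⟩
  have hφ : ∀ i x, φ i x = φ i (x.1, s0) := by
    intro i x
    refine h.loc i _ _ ⟨rfl, fun p hp => ?_⟩
    exact absurd hp (Nat.not_lt_zero _)
  have hedge : ∀ i w (a : NZ A), CE G (φ i (w, s0)) (φ i (act i a.1 w, s0)) := by
    intro i w a
    have := h.edge i (w, fun _ => a)
    rw [hφ, hφ i (tau act i _)] at this
    exact this
  -- classification of the vertices
  have hcls : ∀ w, ∃ k : Fin m ⊕ (Fin 3 ⊕ Fin 3),
      Sum.elim (fun c => ∃ v, C v = c ∧ ∀ i, φ i (w, s0) = Lab.pt v)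
        (Sum.elim (fun k => ∀ i, i ≠ k → ∃ b, φ i (w, s0) = Lab.nb b)
          (fun k => φ k (w, s0) = Lab.top)) k := by
    intro w
    rcases h.cfg (w, s0) with ⟨v, hv⟩ | ⟨b, k, -, hk⟩ | ⟨k, hk, -⟩
    · exact ⟨Sum.inl (C v), v, rfl, hv⟩
    · exact ⟨Sum.inr (Sum.inl k), fun i hi => ⟨b, hk i hi⟩⟩
    · exact ⟨Sum.inr (Sum.inr k), hk⟩
  choose cls hcls using hcls
  have hK : Fintype.card (Fin m ⊕ (Fin 3 ⊕ Fin 3)) < Fintype.card A := by
    simp only [Fintype.card_sum, Fintype.card_fin]
    omega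
  obtain ⟨k, hk⟩ := pigeon hadd hzero hK cls
  rcases k with c | k | k
  · obtain ⟨w, a, h1, h2⟩ := hk 0
    have e1 := hcls w
    have e2 := hcls (act 0 a.1 w)
    rw [h1] at e1
    rw [h2] at e2
    obtain ⟨v, hv, hv'⟩ := e1
    obtain ⟨u, hu, hu'⟩ := e2
    have e3 := hedge 0 w a
    rw [hv', hu'] at e3
    exact C.valid (e3 : G.Adj v u) (by rw [hv, hu])
  · have hik : k + 1 ≠ k := by
      fin_cases k <;> decide
    obtain ⟨w, a, h1, h2⟩ := hk (k + 1)
    have e1 := hcls w
    have e2 := hcls (act (k + 1) a.1 w)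
    rw [h1] at e1
    rw [h2] at e2
    obtain ⟨v, hv⟩ := e1 (k + 1) hik
    obtain ⟨u, hu⟩ := e2 (k + 1) hik
    have e3 := hedge (k + 1) w a
    rw [hv, hu] at e3
    exact e3
  · obtain ⟨w, a, h1, h2⟩ := hk k
    have e1 := hcls w
    have e2 := hcls (act k a.1 w)
    rw [h1] at e1
    rw [h2] at e2
    have e3 := hedge k w a
    rw [(e1 : φ k (w, s0) = Lab.top), (e2 : φ k (act k a.1 w, s0) = Lab.top)] at e3
    exact e3

/-- No local solution for any radius. -/
theorem no_sol [Fintype A] [Nontrivial A] [Fintype W] [Nonempty W] [LinearOrder W]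
    {m : ℕ} (hm3 : 3 ≤ m) (hA2 : ∀ a : A, a + a = 0)
    (hadd : ∀ i a b w, act i a (act i b w) = act i (a + b) w) (hzero : ∀ i w, act i 0 w = w)
    (hfree : ∀ i (a : NZ A) w, act i a.1 w ≠ w) (hcard : m + 6 < Fintype.card A) (r : ℕ) :
    ∀ {V : Type*} {G : SimpleGraph V}, C4Free G → G.Colorable m →
      ∀ φ : Fin 3 → LT W A → Lab V, ¬ Sol act G r φ := by
  have hact : ∀ i a q, act i a (act i a q) = q := by
    intro i a q
    rw [hadd, hA2, hzero]
  induction r with
  | zero =>
    intro V G _ hm φ h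
    exact no_zero hm hadd hzero hcard φ h
  | succ r ih =>
    intro V G hG hm φ h
    obtain ⟨φ', h'⟩ := eliminate hG hact hfree h
    exact ih (plus_c4Free hG) (plus_colorable hm3 hm) φ' h'

end Pool.Agent.Helper70.C4
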